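import Mathlib

set_option autoImplicit false

/-!
# Multidimensional permutation matrices: `M_d(k) ≤ M_{d+1}(k)`

The extremal constant `M_d(k)` of the `d`-dimensional `k × ⋯ × k` permutation matrices does not
decrease when the dimension grows.
-/

namespace Pool.Agent.Results.MP_f36a55_co.DimensionMonotone

open Finset
open scoped ENNReal

/-- The set `P` of the positions of the ones of a `d`-dimensional `k × ⋯ × k` 0-1 matrix is a
permutation matrix: every cross section contains exactly one of them. -/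
def IsPerm {d k : ℕ} (P : Finset (Fin d → Fin k)) : Prop :=
  ∀ (l : Fin d) (i : Fin k), ∃! p, p ∈ P ∧ p l = i

/-- The 0-1 matrix with set of ones `A` contains the one with set of ones `P`: `k` indices may be
chosen in every coordinate, in increasing order, such that the ones of `P` go to ones of `A`. -/
def Contains {d n k : ℕ} (A : Finset (Fin d → Fin n)) (P : Finset (Fin d → Fin k)) : Prop :=
  ∃ j : Fin d → Fin k → Fin n, (∀ l, StrictMono (j l)) ∧ ∀ p ∈ P, (fun l => j l (p l)) ∈ A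

/-- `f(n,P,d)`: the largest number of ones in a `d`-dimensional `n × ⋯ × n` 0-1 matrix which
avoids `P`. -/
noncomputable def f (n : ℕ) {d k : ℕ} (P : Finset (Fin d → Fin k)) : ℕ :=
  sSup {m : ℕ | ∃ A : Finset (Fin d → Fin n), ¬ Contains A P ∧ A.card = m}

/-- `M_d(k)`: the supremum of `f(n,P,d) / n ^ (d-1)` over all `n ≥ 1` and all `d`-dimensional
`k × ⋯ × k` permutation matrices `P`, as an element of `[0, ∞]`. -/
noncomputable def M (d k : ℕ) : ℝ≥0∞ :=
  ⨆ (n : ℕ) (_ : 1 ≤ n) (P : Finset (Fin d → Fin k)) (_ : IsPerm P),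
    (f n P : ℝ≥0∞) / (n : ℝ≥0∞) ^ (d - 1)

lemma le_f {n d k : ℕ} (P : Finset (Fin d → Fin k)) (A : Finset (Fin d → Fin n))
    (h : ¬ Contains A P) : A.card ≤ f n P := by
  apply le_csSup
  · refine ⟨Fintype.card (Fin d → Fin n), ?_⟩
    rintro m ⟨B, _, rfl⟩
    exact card_le_univ B
  · exact ⟨A, h, rfl⟩

/-! ### Adding a dimension -/

/-- repeat the first coordinate -/
def lift {d k : ℕ} (P : Finset (Fin (d + 1) → Fin k)) : Finset (Fin (d + 1 + 1) → Fin k) :=
  P.image (fun p => (Fin.cons (p 0) p : Fin (d + 1 + 1) → Fin k))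

lemma lift_isPerm {d k : ℕ} (P : Finset (Fin (d + 1) → Fin k)) (h : IsPerm P) :
    IsPerm (lift P) := by
  intro l i
  have key : ∀ l' : Fin (d + 1), (∀ p : Fin (d + 1) → Fin k,
      (Fin.cons (p 0) p : Fin (d + 1 + 1) → Fin k) l = p l') →
      ∃! p, p ∈ lift P ∧ p l = i := by
    intro l' hl'
    obtain ⟨p, ⟨hp1, hp2⟩, hu⟩ := h l' i
    refine ⟨Fin.cons (p 0) p, ⟨mem_image_of_mem _ hp1, by rw [hl', hp2]⟩, ?_⟩
    rintro q ⟨hq, hqi⟩
    rw [lift, mem_image] at hq
    obtain ⟨p', hp', rfl⟩ := hq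
    rw [hl'] at hqi
    rw [hu p' ⟨hp', hqi⟩]
  rcases Fin.eq_zero_or_eq_succ l with rfl | ⟨l', rfl⟩
  · exact key 0 (fun p => by simp)
  · exact key l' (fun p => by simp)

lemma lift_f {n d k : ℕ} (P : Finset (Fin (d + 1) → Fin k)) : n * f n P ≤ f n (lift P) := by
  classical
  rcases Nat.eq_zero_or_pos (f n P) with h0 | hpos
  · rw [h0]; simp
  · have hne : {m : ℕ | ∃ A : Finset (Fin (d + 1) → Fin n), ¬ Contains A P ∧ A.card = m}.Nonempty := by
      by_contra hemp
      rw [Set.not_nonempty_iff_eq_empty] at hemp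
      rw [f, hemp] at hpos
      simp at hpos
    have hbdd : BddAbove {m : ℕ | ∃ A : Finset (Fin (d + 1) → Fin n), ¬ Contains A P ∧ A.card = m} := by
      refine ⟨Fintype.card (Fin (d + 1) → Fin n), ?_⟩
      rintro m ⟨B, _, rfl⟩
      exact card_le_univ B
    obtain ⟨A, hA1, hA2⟩ := Nat.sSup_mem hne hbdd
    have hA3 : A.card = f n P := hA2
    set A' : Finset (Fin (d + 1 + 1) → Fin n) := univ.filter (fun v => Fin.tail v ∈ A) with hA'
    have hnc : ¬ Contains A' (lift P) := by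
      rintro ⟨j, hj, hP⟩
      apply hA1
      refine ⟨fun l => j l.succ, fun l => hj l.succ, ?_⟩
      intro p hp
      have h1 := hP (Fin.cons (p 0) p) (mem_image_of_mem _ hp)
      rw [hA', mem_filter] at h1
      exact h1.2
    refine le_trans ?_ (le_f (lift P) A' hnc)
    have h2 : n * f n P = ((univ : Finset (Fin n)) ×ˢ A).card := by
      rw [card_product, hA3]; simp
    rw [h2]
    apply card_le_card_of_injOn (fun z => (Fin.cons z.1 z.2 : Fin (d + 1 + 1) → Fin n))
    · rintro ⟨x, v⟩ hz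
      rw [mem_coe, mem_product] at hz
      rw [hA', coe_filter]
      exact ⟨mem_univ _, by simpa using hz.2⟩
    · rintro ⟨x, v⟩ _ ⟨x', v'⟩ _ h
      simp only at h
      rw [Fin.cons_inj] at h
      exact Prod.ext h.1 h.2

/-- **Main theorem.** `M_d(k) ≤ M_{d+1}(k)` for all `d ≥ 1` and all `k`. -/
theorem result (d k : ℕ) (hd : 1 ≤ d) : M d k ≤ M (d + 1) k := by
  obtain ⟨e, rfl⟩ : ∃ e, d = e + 1 := ⟨d - 1, by omega⟩
  unfold M
  refine iSup_le fun n => iSup_le fun hn => iSup_le fun P => iSup_le fun hP => ?_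
  refine le_trans ?_ (le_iSup_of_le n (le_iSup_of_le hn (le_iSup_of_le (lift P)
    (le_iSup_of_le (lift_isPerm P hP) le_rfl))))
  have h1 : ((n * f n P : ℕ) : ℝ≥0∞) ≤ (f n (lift P) : ℝ≥0∞) := by exact_mod_cast lift_f P
  refine le_trans ?_ (ENNReal.div_le_div_right h1 _)
  have hn0 : (n : ℝ≥0∞) ≠ 0 := by
    have : n ≠ 0 := by omega
    exact_mod_cast this
  rw [show e + 1 + 1 - 1 = (e + 1 - 1) + 1 by omega, pow_succ, mul_comm ((n : ℝ≥0∞) ^ _),
    Nat.cast_mul, ENNReal.mul_div_mul_left _ _ hn0 (ENNReal.natCast_ne_top n)]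

end Pool.Agent.Results.MP_f36a55_co.DimensionMonotone
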