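import Mathlib

set_option autoImplicit false

/-!
# Multidimensional permutation matrices: `M_d(k) ≥ 2 ^ (c √k)` in every dimension

We prove `M_d(k) ≥ (1/6) (3/2) ^ (√k / 12)` for all `d ≥ 2` and all `k ≥ 144`. The constant in the
exponent does not depend on the dimension `d`, and the exponent of `k` is `1/2` for every `d`
(the known lower bound was `2 ^ (c k ^ (1/d))`, for infinitely many `k`).
-/

namespace Pool.Agent.Results.MP_f36a55_co.SqrtExponent

open Finset
open scoped ENNReal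

/-- The set `P` of the positions of the ones of a `d`-dimensional `k × ⋯ × k` 0-1 matrix is a
permutation matrix: every cross section contains exactly one of them. -/
def IsPerm {d k : ℕ} (P : Finset (Fin d → Fin k)) : Prop :=
  ∀ (l : Fin d) (i : Fin k), ∃! p, p ∈ P ∧ p l = i

/-- The 0-1 matrix with set of ones `A` contains the one with set of ones `P`: `k` indices may be
chosen in every coordinate, in increasing order, such that the ones of `P` go to ones of `A`. -/
def Contains {d n k : ℕ} (A : Finset (Fin d → Fin n)) (P : Finset (Fin d → Fin k)) : Prop :=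
  ∃ j : Fin d → Fin k → Fin n, (∀ l, StrictMono (j l)) ∧ ∀ p ∈ P, (fun l => j l (p l)) ∈ A

/-- `f(n,P,d)`: the largest number of ones in a `d`-dimensional `n × ⋯ × n` 0-1 matrix which
avoids `P`. -/
noncomputable def f (n : ℕ) {d k : ℕ} (P : Finset (Fin d → Fin k)) : ℕ :=
  sSup {m : ℕ | ∃ A : Finset (Fin d → Fin n), ¬ Contains A P ∧ A.card = m}

/-- `M_d(k)`: the supremum of `f(n,P,d) / n ^ (d-1)` over all `n ≥ 1` and all `d`-dimensional
`k × ⋯ × k` permutation matrices `P`, as an element of `[0, ∞]`. -/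
noncomputable def M (d k : ℕ) : ℝ≥0∞ :=
  ⨆ (n : ℕ) (_ : 1 ≤ n) (P : Finset (Fin d → Fin k)) (_ : IsPerm P),
    (f n P : ℝ≥0∞) / (n : ℝ≥0∞) ^ (d - 1)

/-! ### Binary trees -/

/-- The nodes of a binary tree, as pairs (depth, number at this depth), when the root is
`(i, c)`. -/
def nodes : BinaryTree Unit → ℕ → ℕ → Finset (ℕ × ℕ)
  | .nil, _, _ => ∅
  | .node _ a b, i, c => insert (i, c) (nodes a (i + 1) (2 * c) ∪ nodes b (i + 1) (2 * c + 1))

lemma nodes_depth (τ : BinaryTree Unit) : ∀ (i c : ℕ) (p : ℕ × ℕ), p ∈ nodes τ i c →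
    i ≤ p.1 ∧ p.2 / 2 ^ (p.1 - i) = c := by
  induction τ with
  | nil => intro i c p hp; simp [nodes] at hp
  | node _ a b iha ihb =>
    intro i c p hp
    simp only [nodes, mem_insert, mem_union] at hp
    rcases hp with rfl | hp | hp
    · simp
    · obtain ⟨h1, h2⟩ := iha _ _ _ hp
      refine ⟨by omega, ?_⟩
      have : p.1 - i = (p.1 - (i + 1)) + 1 := by omega
      rw [this, pow_succ, ← Nat.div_div_eq_div_mul, h2]; omega
    · obtain ⟨h1, h2⟩ := ihb _ _ _ hp
      refine ⟨by omega, ?_⟩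
      have : p.1 - i = (p.1 - (i + 1)) + 1 := by omega
      rw [this, pow_succ, ← Nat.div_div_eq_div_mul, h2]; omega

lemma card_nodes (τ : BinaryTree Unit) : ∀ (i c : ℕ), (nodes τ i c).card = τ.numNodes := by
  induction τ with
  | nil => intro i c; simp [nodes, BinaryTree.numNodes]
  | node _ a b iha ihb =>
    intro i c
    have hd : Disjoint (nodes a (i + 1) (2 * c)) (nodes b (i + 1) (2 * c + 1)) := by
      rw [Finset.disjoint_left]
      intro p h1 h2
      have := (nodes_depth a _ _ _ h1).2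
      have := (nodes_depth b _ _ _ h2).2
      omega
    have hn : (i, c) ∉ nodes a (i + 1) (2 * c) ∪ nodes b (i + 1) (2 * c + 1) := by
      rw [mem_union]
      rintro (h | h)
      · have := (nodes_depth a _ _ _ h).1; simp at this
      · have := (nodes_depth b _ _ _ h).1; simp at this
    simp only [nodes, BinaryTree.numNodes]
    rw [card_insert_of_notMem hn, card_union_of_disjoint hd, iha, ihb]

lemma prune (τ : BinaryTree Unit) : ∀ (m i c : ℕ), m ≤ τ.numNodes →
    ∃ σ : BinaryTree Unit, σ.numNodes = m ∧ nodes σ i c ⊆ nodes τ i c := by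
  induction τ with
  | nil =>
    intro m i c hm
    exact ⟨.nil, by simp [BinaryTree.numNodes] at hm ⊢; omega, by simp⟩
  | node u a b iha ihb =>
    intro m i c hm
    rcases Nat.eq_zero_or_pos m with rfl | hpos
    · exact ⟨.nil, by simp [BinaryTree.numNodes], by simp [nodes]⟩
    · simp only [BinaryTree.numNodes] at hm
      obtain ⟨σa, h1, h2⟩ := iha (min (m - 1) a.numNodes) (i + 1) (2 * c) (min_le_right _ _)
      obtain ⟨σb, h3, h4⟩ := ihb (m - 1 - min (m - 1) a.numNodes) (i + 1) (2 * c + 1) (by omega)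
      refine ⟨.node u σa σb, ?_, ?_⟩
      · simp only [BinaryTree.numNodes]; omega
      · simp only [nodes]
        exact insert_subset_insert _ (union_subset_union h2 h4)

/-- Disjoint intervals `[lo a, hi a]`, `a ∈ S`, inside a dyadic interval: there is a binary tree of
dyadic intervals with at least `|S|` nodes, each of which contains one of the intervals. -/
lemma tree_of_groups (L : ℕ) (lo hi : ℕ → ℕ) : ∀ (h i c : ℕ) (S : Finset ℕ), i + h = L →
    (∀ a ∈ S, lo a ≤ hi a) → (∀ a ∈ S, ∀ b ∈ S, a < b → hi a < lo b) →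
    (∀ a ∈ S, lo a / 2 ^ h = c ∧ hi a / 2 ^ h = c) →
    ∃ τ : BinaryTree Unit, S.card ≤ τ.numNodes ∧ ∀ p ∈ nodes τ i c, p.1 ≤ L ∧
      ∃ a ∈ S, lo a / 2 ^ (L - p.1) = p.2 ∧ hi a / 2 ^ (L - p.1) = p.2 := by
  intro h
  induction h with
  | zero =>
    intro i c S hL h1 h2 h3
    rcases S.eq_empty_or_nonempty with rfl | ⟨a, ha⟩
    · exact ⟨.nil, by simp, by simp [nodes]⟩
    · refine ⟨.node () .nil .nil, ?_, ?_⟩
      · simp only [BinaryTree.numNodes]
        rw [Finset.card_le_one]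
        intro x hx y hy
        by_contra hne
        have e1 := h3 x hx
        have e2 := h3 y hy
        simp only [pow_zero, Nat.div_one] at e1 e2
        rcases lt_or_gt_of_ne hne with hlt | hlt
        · have := h2 x hx y hy hlt; omega
        · have := h2 y hy x hx hlt; omega
      · intro p hp
        simp only [nodes, union_empty, mem_insert, notMem_empty, or_false] at hp
        subst hp
        refine ⟨by omega, a, ha, ?_⟩
        have e1 := h3 a ha
        have : L - i = 0 := by omega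
        simpa [this] using e1
  | succ h ih =>
    intro i c S hL h1 h2 h3
    rcases S.eq_empty_or_nonempty with rfl | ⟨a0, ha0⟩
    · exact ⟨.nil, by simp, by simp [nodes]⟩
    · have key : ∀ a ∈ S, (lo a / 2 ^ h = 2 * c ∨ lo a / 2 ^ h = 2 * c + 1) ∧
          (hi a / 2 ^ h = 2 * c ∨ hi a / 2 ^ h = 2 * c + 1) ∧ lo a / 2 ^ h ≤ hi a / 2 ^ h := by
        intro a ha
        have e := h3 a ha
        rw [pow_succ, ← Nat.div_div_eq_div_mul, ← Nat.div_div_eq_div_mul] at e
        exact ⟨by omega, by omega, Nat.div_le_div_right (h1 a ha)⟩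
      obtain ⟨τa, ta1, ta2⟩ := ih (i + 1) (2 * c) (S.filter (fun a => hi a / 2 ^ h = 2 * c))
        (by omega) (fun a ha => h1 a (mem_filter.1 ha).1)
        (fun a ha b hb => h2 a (mem_filter.1 ha).1 b (mem_filter.1 hb).1)
        (fun a ha => by
          have := key a (mem_filter.1 ha).1
          have := (mem_filter.1 ha).2
          omega)
      obtain ⟨τb, tb1, tb2⟩ := ih (i + 1) (2 * c + 1) (S.filter (fun a => lo a / 2 ^ h = 2 * c + 1))
        (by omega) (fun a ha => h1 a (mem_filter.1 ha).1)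
        (fun a ha b hb => h2 a (mem_filter.1 ha).1 b (mem_filter.1 hb).1)
        (fun a ha => by
          have := key a (mem_filter.1 ha).1
          have := (mem_filter.1 ha).2
          omega)
      have hcross : (S.filter (fun a => lo a / 2 ^ h = 2 * c ∧ hi a / 2 ^ h = 2 * c + 1)).card
          ≤ 1 := by
        rw [Finset.card_le_one]
        intro x hx y hy
        rw [mem_filter] at hx hy
        by_contra hne
        rcases lt_or_gt_of_ne hne with hlt | hlt
        · have := Nat.div_le_div_right (c := 2 ^ h) (h2 x hx.1 y hy.1 hlt).le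
          omega
        · have := Nat.div_le_div_right (c := 2 ^ h) (h2 y hy.1 x hx.1 hlt).le
          omega
      have hS : S ⊆ (S.filter (fun a => hi a / 2 ^ h = 2 * c)) ∪
          (S.filter (fun a => lo a / 2 ^ h = 2 * c + 1)) ∪
          (S.filter (fun a => lo a / 2 ^ h = 2 * c ∧ hi a / 2 ^ h = 2 * c + 1)) := by
        intro a ha
        have := key a ha
        simp only [mem_union, mem_filter, ha, true_and]
        omega
      have hcard := (card_le_card hS).trans ((card_union_le _ _).trans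
        (Nat.add_le_add (card_union_le _ _) le_rfl))
      refine ⟨.node () τa τb, ?_, ?_⟩
      · simp only [BinaryTree.numNodes]; omega
      · intro p hp
        simp only [nodes, mem_insert, mem_union] at hp
        rcases hp with rfl | hp | hp
        · refine ⟨by omega, a0, ha0, ?_⟩
          have : L - i = h + 1 := by omega
          simpa [this] using h3 a0 ha0
        · obtain ⟨q1, a, ha, q2⟩ := ta2 p hp
          exact ⟨q1, a, (mem_filter.1 ha).1, q2⟩
        · obtain ⟨q1, a, ha, q2⟩ := tb2 p hp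
          exact ⟨q1, a, (mem_filter.1 ha).1, q2⟩

/-! ### A random set of zero rectangles -/

lemma sum_avoid {ι : Type*} [DecidableEq ι] (U W : Finset ι) (hW : W ⊆ U) (q : ℝ) :
    ∑ Z ∈ U.powerset with Disjoint Z W, q ^ Z.card * (1 - q) ^ (U.card - Z.card) =
      (1 - q) ^ W.card := by
  have hset : U.powerset.filter (fun Z => Disjoint Z W) = (U \ W).powerset := by
    ext Z
    simp only [mem_filter, mem_powerset, subset_sdiff]
  rw [hset]
  have h1 : ∀ Z ∈ (U \ W).powerset, q ^ Z.card * (1 - q) ^ (U.card - Z.card) =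
      (1 - q) ^ W.card * (q ^ Z.card * (1 - q) ^ ((U \ W).card - Z.card)) := by
    intro Z hZ
    have hc : Z.card ≤ (U \ W).card := card_le_card (mem_powerset.1 hZ)
    have hu : (U \ W).card + W.card = U.card := card_sdiff_add_card_eq_card hW
    have : U.card - Z.card = W.card + ((U \ W).card - Z.card) := by omega
    rw [this, pow_add]; ring
  rw [sum_congr rfl h1, ← mul_sum, sum_pow_mul_eq_add_pow]
  simp

/-- The dyadic intervals containing `x`. -/
def anc (L x : ℕ) : Finset (ℕ × ℕ) := (range (L + 1)).image (fun i => (i, x / 2 ^ (L - i)))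

lemma card_anc (L x : ℕ) : (anc L x).card = L + 1 := by
  rw [anc, card_image_of_injective, card_range]
  intro a b h
  exact (Prod.mk.inj h).1

/-- all dyadic intervals -/
def V (L : ℕ) : Finset (ℕ × ℕ) := range (L + 1) ×ˢ range (2 ^ L)

lemma anc_subset (L x : ℕ) (hx : x < 2 ^ L) : anc L x ⊆ V L := by
  intro p hp
  rw [anc, mem_image] at hp
  obtain ⟨i, hi, rfl⟩ := hp
  rw [V, mem_product]
  exact ⟨hi, mem_range.2 (lt_of_le_of_lt (Nat.div_le_self _ _) hx)⟩

/-- the pairs of rows and columns outside of all zero rectangles -/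
def ones (L : ℕ) (Z : Finset ((ℕ × ℕ) × (ℕ × ℕ))) : Finset (ℕ × ℕ) :=
  (range (2 ^ L) ×ˢ range (2 ^ L)).filter (fun xy => Disjoint Z (anc L xy.1 ×ˢ anc L xy.2))

lemma card_trees (r : ℕ) : ((BinaryTree.treesOfNumNodesEq r).card : ℝ) ≤ 4 ^ r := by
  rw [BinaryTree.treesOfNumNodesEq_card_eq_catalan, catalan_eq_centralBinom_div]
  have h1 : Nat.centralBinom r / (r + 1) ≤ 4 ^ r := by
    refine (Nat.div_le_self _ _).trans ?_
    rw [Nat.centralBinom]
    refine (Nat.choose_le_two_pow _ _).trans ?_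
    rw [pow_mul]; norm_num
  exact_mod_cast h1

lemma numeric (s : ℕ) (hs : 1 ≤ s) (q : ℝ) (hq : q = 1 / (4 * s)) :
    (3 / 4 : ℝ) ^ s ≤ (1 - q) ^ (s * s) ∧
    (4 : ℝ) ^ (12 * s) * 4 ^ (12 * s) * (1 - q) ^ ((12 * s) * (12 * s)) <
      1 / 2 * (1 - q) ^ (s * s) := by
  have hs' : (1 : ℝ) ≤ s := by exact_mod_cast hs
  have hq0 : 0 < q := by rw [hq]; positivity
  have hq1 : q ≤ 1 / 4 := by
    rw [hq]
    apply one_div_le_one_div_of_le (by norm_num)
    linarith
  have hp0 : 0 < 1 - q := by linarith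
  have hp1 : 1 - q ≤ 1 := by linarith
  constructor
  · rw [pow_mul]
    apply pow_le_pow_left₀ (by norm_num)
    have := one_add_mul_le_pow (a := -q) (by linarith) s
    have h2 : (s : ℝ) * q = 1 / 4 := by rw [hq]; field_simp
    calc (3 / 4 : ℝ) = 1 + s * (-q) := by linarith [h2, mul_neg (s : ℝ) q]
      _ ≤ (1 + -q) ^ s := this
      _ = (1 - q) ^ s := by ring
  · have h1 : (1 - q) ^ (4 * s) ≤ 10 / 27 := by
      have h2 : (1 - (1 : ℝ) / ((4 * s : ℕ) : ℝ)) ^ (4 * s) ≤ Real.exp (-1) :=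
        Real.one_sub_div_pow_le_exp_neg (n := 4 * s) (t := 1)
          (by push_cast; linarith)
      have h3 : (1 - (1 : ℝ) / ((4 * s : ℕ) : ℝ)) = 1 - q := by rw [hq]; push_cast; rfl
      rw [h3] at h2
      refine h2.trans ?_
      rw [Real.exp_neg]
      have := Real.exp_one_gt_d9
      rw [inv_le_comm₀ (Real.exp_pos 1) (by norm_num)]
      norm_num
      linarith
    have h4 : (1 - q) ^ ((12 * s) * (12 * s)) ≤ (1 - q) ^ (s * s) * ((10 / 27) ^ 35) ^ s := by
      have e : (12 * s) * (12 * s) = s * s + (4 * s) * (35 * s) + 3 * (s * s) := by ring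
      rw [e, pow_add, pow_add, mul_assoc]
      apply mul_le_mul_of_nonneg_left _ (by positivity)
      calc (1 - q) ^ (4 * s * (35 * s)) * (1 - q) ^ (3 * (s * s))
          ≤ (1 - q) ^ (4 * s * (35 * s)) * 1 := by
            apply mul_le_mul_of_nonneg_left _ (by positivity)
            exact pow_le_one₀ hp0.le hp1
        _ = ((1 - q) ^ (4 * s)) ^ (35 * s) := by rw [mul_one, pow_mul]
        _ ≤ (10 / 27) ^ (35 * s) := pow_le_pow_left₀ (by positivity) h1 _
        _ = ((10 / 27) ^ 35) ^ s := by rw [pow_mul]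
    have h5 : (4 : ℝ) ^ (12 * s) * 4 ^ (12 * s) = (4 ^ 24) ^ s := by
      rw [← pow_add, ← pow_mul]; congr 1; ring
    rw [h5]
    have h6 : ((4 : ℝ) ^ 24) ^ s * ((10 / 27) ^ 35) ^ s < 1 / 2 := by
      rw [← mul_pow]
      have hb : ((4 : ℝ) ^ 24 * (10 / 27) ^ 35) < 1 / 2 := by norm_num
      calc ((4 : ℝ) ^ 24 * (10 / 27) ^ 35) ^ s ≤ ((4 : ℝ) ^ 24 * (10 / 27) ^ 35) ^ 1 :=
            pow_le_pow_of_le_one (by positivity) (by linarith) hs
        _ < 1 / 2 := by rw [pow_one]; exact hb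
    have hpos : 0 < (1 - q) ^ (s * s) := by positivity
    calc ((4 : ℝ) ^ 24) ^ s * (1 - q) ^ ((12 * s) * (12 * s))
        ≤ ((4 : ℝ) ^ 24) ^ s * ((1 - q) ^ (s * s) * ((10 / 27) ^ 35) ^ s) :=
          mul_le_mul_of_nonneg_left h4 (by positivity)
      _ = (((4 : ℝ) ^ 24) ^ s * ((10 / 27) ^ 35) ^ s) * (1 - q) ^ (s * s) := by ring
      _ < 1 / 2 * (1 - q) ^ (s * s) := mul_lt_mul_of_pos_right h6 hpos

lemma exists_zero_set (L : ℕ) : ∃ Z : Finset ((ℕ × ℕ) × (ℕ × ℕ)),
    (∀ τ₁ τ₂ : BinaryTree Unit, τ₁.numNodes = 12 * (L + 1) → τ₂.numNodes = 12 * (L + 1) →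
      nodes τ₁ 0 0 ⊆ V L → nodes τ₂ 0 0 ⊆ V L → ¬ Disjoint Z (nodes τ₁ 0 0 ×ˢ nodes τ₂ 0 0)) ∧
    (1 / 2 : ℝ) * (3 / 4) ^ (L + 1) * ((2 ^ L) * (2 ^ L)) ≤ (ones L Z).card := by
  classical
  by_contra hcon
  push Not at hcon
  set s : ℕ := L + 1 with hs
  set q : ℝ := 1 / (4 * s) with hq
  obtain ⟨num1, num2⟩ := numeric s (by omega) q hq
  have hs' : (1 : ℝ) ≤ s := by rw [hs]; push_cast; linarith [Nat.cast_nonneg (α := ℝ) L]
  have hq0 : 0 < q := by rw [hq]; positivity
  have hq1 : q ≤ 1 / 4 := by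
    rw [hq]
    apply one_div_le_one_div_of_le (by norm_num)
    linarith
  have hp0 : 0 < 1 - q := by linarith
  set U : Finset ((ℕ × ℕ) × (ℕ × ℕ)) := V L ×ˢ V L with hU
  set w : Finset ((ℕ × ℕ) × (ℕ × ℕ)) → ℝ := fun Z => q ^ Z.card * (1 - q) ^ (U.card - Z.card)
    with hw
  have hw0 : ∀ Z, 0 ≤ w Z := fun Z => by rw [hw]; positivity
  have hw1 : ∑ Z ∈ U.powerset, w Z = 1 := by
    have := sum_pow_mul_eq_add_pow q (1 - q) U
    simpa using this
  set R : Finset (ℕ × ℕ) := range (2 ^ L) ×ˢ range (2 ^ L) with hR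
  have hRc : (R.card : ℝ) = (2 ^ L) * (2 ^ L) := by rw [hR]; simp
  -- the expected number of ones
  have hE : ∑ Z ∈ U.powerset, w Z * ((ones L Z).card : ℝ) = R.card * (1 - q) ^ (s * s) := by
    have h1 : ∀ Z ∈ U.powerset, w Z * ((ones L Z).card : ℝ) =
        ∑ xy ∈ R, if Disjoint Z (anc L xy.1 ×ˢ anc L xy.2) then w Z else 0 := by
      intro Z _
      rw [ones, ← sum_filter, sum_const, nsmul_eq_mul, mul_comm]
    rw [sum_congr rfl h1, sum_comm]
    have h2 : ∀ xy ∈ R, ∑ Z ∈ U.powerset,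
        (if Disjoint Z (anc L xy.1 ×ˢ anc L xy.2) then w Z else 0) = (1 - q) ^ (s * s) := by
      intro xy hxy
      rw [hR, mem_product, mem_range, mem_range] at hxy
      rw [← sum_filter]
      rw [sum_avoid U (anc L xy.1 ×ˢ anc L xy.2)
        (product_subset_product (anc_subset L _ hxy.1) (anc_subset L _ hxy.2)) q]
      rw [card_product, card_anc, card_anc]
    rw [sum_congr rfl h2, sum_const, nsmul_eq_mul]
  -- the bad events
  set TT : Finset (BinaryTree Unit) :=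
    (BinaryTree.treesOfNumNodesEq (12 * s)).filter (fun τ => nodes τ 0 0 ⊆ V L) with hTT
  have hTTc : (TT.card : ℝ) ≤ 4 ^ (12 * s) := by
    refine le_trans ?_ (card_trees (12 * s))
    exact_mod_cast card_filter_le _ _
  have hub : ∀ Z ∈ U.powerset, ((ones L Z).card : ℝ) ≤
      (1 / 2 : ℝ) * (3 / 4) ^ s * ((2 ^ L) * (2 ^ L)) +
        R.card * ∑ τ ∈ TT ×ˢ TT, (if Disjoint Z (nodes τ.1 0 0 ×ˢ nodes τ.2 0 0) then (1 : ℝ)
          else 0) := by
    intro Z _
    by_cases hZ : ∀ τ₁ τ₂ : BinaryTree Unit, τ₁.numNodes = 12 * s → τ₂.numNodes = 12 * s →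
      nodes τ₁ 0 0 ⊆ V L → nodes τ₂ 0 0 ⊆ V L → ¬ Disjoint Z (nodes τ₁ 0 0 ×ˢ nodes τ₂ 0 0)
    · have h1 := (hcon Z hZ).le
      have h2 : (0 : ℝ) ≤ R.card * ∑ τ ∈ TT ×ˢ TT,
          (if Disjoint Z (nodes τ.1 0 0 ×ˢ nodes τ.2 0 0) then (1 : ℝ) else 0) := by
        apply mul_nonneg (Nat.cast_nonneg _)
        apply sum_nonneg
        intro τ _
        split_ifs <;> norm_num
      linarith
    · push Not at hZ
      obtain ⟨τ₁, τ₂, t1, t2, t3, t4, t5⟩ := hZ
      have hmem : (τ₁, τ₂) ∈ TT ×ˢ TT := by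
        rw [mem_product, hTT, mem_filter, mem_filter, BinaryTree.mem_treesOfNumNodesEq,
          BinaryTree.mem_treesOfNumNodesEq]
        exact ⟨⟨t1, t3⟩, ⟨t2, t4⟩⟩
      have h1 : (1 : ℝ) ≤ ∑ τ ∈ TT ×ˢ TT,
          (if Disjoint Z (nodes τ.1 0 0 ×ˢ nodes τ.2 0 0) then (1 : ℝ) else 0) := by
        have h0 : ∀ τ ∈ TT ×ˢ TT, (0 : ℝ) ≤
            (if Disjoint Z (nodes τ.1 0 0 ×ˢ nodes τ.2 0 0) then (1 : ℝ) else 0) := by
          intro τ _
          split_ifs <;> norm_num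
        have := single_le_sum h0 hmem
        simpa [t5] using this
      have h2 : ((ones L Z).card : ℝ) ≤ R.card := by
        exact_mod_cast card_filter_le _ _
      have h3 : (0 : ℝ) ≤ (1 / 2 : ℝ) * (3 / 4) ^ s * ((2 ^ L) * (2 ^ L)) := by positivity
      have h4 : (R.card : ℝ) * 1 ≤ R.card * ∑ τ ∈ TT ×ˢ TT,
          (if Disjoint Z (nodes τ.1 0 0 ×ˢ nodes τ.2 0 0) then (1 : ℝ) else 0) :=
        mul_le_mul_of_nonneg_left h1 (Nat.cast_nonneg _)
      linarith
  have hbad : ∑ Z ∈ U.powerset, w Z * ∑ τ ∈ TT ×ˢ TT,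
      (if Disjoint Z (nodes τ.1 0 0 ×ˢ nodes τ.2 0 0) then (1 : ℝ) else 0) ≤
        4 ^ (12 * s) * 4 ^ (12 * s) * (1 - q) ^ ((12 * s) * (12 * s)) := by
    have h1 : ∀ Z ∈ U.powerset, w Z * ∑ τ ∈ TT ×ˢ TT,
        (if Disjoint Z (nodes τ.1 0 0 ×ˢ nodes τ.2 0 0) then (1 : ℝ) else 0) =
        ∑ τ ∈ TT ×ˢ TT, if Disjoint Z (nodes τ.1 0 0 ×ˢ nodes τ.2 0 0) then w Z else 0 := by
      intro Z _
      rw [mul_sum]
      apply sum_congr rfl
      intro τ _
      split_ifs <;> simp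
    rw [sum_congr rfl h1, sum_comm]
    have h2 : ∀ τ ∈ TT ×ˢ TT, ∑ Z ∈ U.powerset,
        (if Disjoint Z (nodes τ.1 0 0 ×ˢ nodes τ.2 0 0) then w Z else 0) =
          (1 - q) ^ ((12 * s) * (12 * s)) := by
      intro τ hτ
      rw [mem_product, hTT, mem_filter, mem_filter, BinaryTree.mem_treesOfNumNodesEq,
        BinaryTree.mem_treesOfNumNodesEq] at hτ
      rw [← sum_filter]
      rw [sum_avoid U (nodes τ.1 0 0 ×ˢ nodes τ.2 0 0)
        (product_subset_product hτ.1.2 hτ.2.2) q]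
      rw [card_product, card_nodes, card_nodes, hτ.1.1, hτ.2.1]
    rw [sum_congr rfl h2, sum_const, nsmul_eq_mul]
    apply mul_le_mul_of_nonneg_right _ (by positivity)
    rw [card_product]
    push_cast
    exact mul_le_mul hTTc hTTc (Nat.cast_nonneg _) (by positivity)
  have hfin : (R.card : ℝ) * (1 - q) ^ (s * s) ≤
      (1 / 2 : ℝ) * (3 / 4) ^ s * ((2 ^ L) * (2 ^ L)) +
        R.card * (4 ^ (12 * s) * 4 ^ (12 * s) * (1 - q) ^ ((12 * s) * (12 * s))) := by
    rw [← hE]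
    calc ∑ Z ∈ U.powerset, w Z * ((ones L Z).card : ℝ)
        ≤ ∑ Z ∈ U.powerset, w Z * ((1 / 2 : ℝ) * (3 / 4) ^ s * ((2 ^ L) * (2 ^ L)) +
          R.card * ∑ τ ∈ TT ×ˢ TT, (if Disjoint Z (nodes τ.1 0 0 ×ˢ nodes τ.2 0 0) then (1 : ℝ)
            else 0)) := sum_le_sum (fun Z hZ => mul_le_mul_of_nonneg_left (hub Z hZ) (hw0 Z))
      _ = (∑ Z ∈ U.powerset, w Z) * ((1 / 2 : ℝ) * (3 / 4) ^ s * ((2 ^ L) * (2 ^ L))) +
          R.card * ∑ Z ∈ U.powerset, w Z * ∑ τ ∈ TT ×ˢ TT,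
            (if Disjoint Z (nodes τ.1 0 0 ×ˢ nodes τ.2 0 0) then (1 : ℝ) else 0) := by
          rw [sum_mul, mul_sum, ← sum_add_distrib]
          apply sum_congr rfl
          intro Z _
          ring
      _ ≤ _ := by
          rw [hw1, one_mul]
          have := mul_le_mul_of_nonneg_left hbad (Nat.cast_nonneg (α := ℝ) R.card)
          linarith
  have hRpos : (0 : ℝ) < (2 ^ L) * (2 ^ L) := by positivity
  rw [hRc] at hfin
  have h1 : (2 ^ L * 2 ^ L : ℝ) * (1 - q) ^ (s * s) ≤ (2 ^ L * 2 ^ L) *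
      ((1 / 2 : ℝ) * (3 / 4) ^ s +
        (4 ^ (12 * s) * 4 ^ (12 * s) * (1 - q) ^ ((12 * s) * (12 * s)))) := by
    linarith
  have h2 := le_of_mul_le_mul_left h1 hRpos
  linarith

/-! ### The permutation -/

/-- exchange of the two digits in base `r` of the numbers below `r * r` -/
def sw (r i : ℕ) : ℕ := if i < r * r then (i % r) * r + i / r else i

lemma sw_lt {r k i : ℕ} (hr : r * r ≤ k) (hi : i < k) : sw r i < k := by
  unfold sw
  split_ifs with h
  · have hr0 : 0 < r := by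
      rcases Nat.eq_zero_or_pos r with rfl | h0
      · simp at h
      · exact h0
    have h1 : i % r < r := Nat.mod_lt _ hr0
    have h2 : i / r < r := Nat.div_lt_of_lt_mul h
    have h3 : (i % r) * r ≤ (r - 1) * r := Nat.mul_le_mul_right _ (by omega)
    have h4 : (r - 1) * r + r = r * r := by
      have : r - 1 + 1 = r := by omega
      calc (r - 1) * r + r = (r - 1 + 1) * r := by ring
        _ = r * r := by rw [this]
    omega
  · exact hi

lemma sw_digits {r a b : ℕ} (ha : a < r) (hb : b < r) : sw r (a * r + b) = b * r + a := by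
  have hr0 : 0 < r := by omega
  have h1 : a * r + b < r * r := by
    have h3 : a * r ≤ (r - 1) * r := Nat.mul_le_mul_right _ (by omega)
    have h4 : (r - 1) * r + r = r * r := by
      have : r - 1 + 1 = r := by omega
      calc (r - 1) * r + r = (r - 1 + 1) * r := by ring
        _ = r * r := by rw [this]
    omega
  unfold sw
  rw [if_pos h1]
  have h2 : (a * r + b) % r = b := by
    rw [Nat.mul_comm, Nat.mul_add_mod, Nat.mod_eq_of_lt hb]
  have h3 : (a * r + b) / r = a := by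
    rw [Nat.mul_comm, Nat.mul_add_div hr0, Nat.div_eq_of_lt hb, Nat.add_zero]
  rw [h2, h3]

lemma sw_sw {r i : ℕ} : sw r (sw r i) = i := by
  by_cases h : i < r * r
  · have hr0 : 0 < r := by
      rcases Nat.eq_zero_or_pos r with rfl | h0
      · simp at h
      · exact h0
    have h1 : i % r < r := Nat.mod_lt _ hr0
    have h2 : i / r < r := Nat.div_lt_of_lt_mul h
    have h3 : i = (i / r) * r + i % r := by
      have := Nat.div_add_mod i r
      rw [Nat.mul_comm] at this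
      exact this.symm
    have h4 : sw r i = (i % r) * r + i / r := by unfold sw; rw [if_pos h]
    rw [h4, sw_digits h1 h2]
    exact h3.symm
  · have h4 : sw r i = i := by unfold sw; rw [if_neg h]
    rw [h4, h4]

/-- the positions of the ones of the permutation matrix: second coordinate `sw r i`, all others
`i` -/
def pos (e r k : ℕ) (hr : r * r ≤ k) (i : Fin k) : Fin (e + 2) → Fin k :=
  fun l => if l = 1 then ⟨sw r i, sw_lt hr i.2⟩ else i

/-- the permutation matrix -/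
def P (e r k : ℕ) (hr : r * r ≤ k) : Finset (Fin (e + 2) → Fin k) :=
  univ.image (pos e r k hr)

lemma P_isPerm (e r k : ℕ) (hr : r * r ≤ k) : IsPerm (P e r k hr) := by
  intro l i
  by_cases hl : l = 1
  · subst hl
    refine ⟨pos e r k hr ⟨sw r i, sw_lt hr i.2⟩, ⟨mem_image_of_mem _ (mem_univ _), ?_⟩, ?_⟩
    · simp [pos, sw_sw]
    · rintro p ⟨hp, hpi⟩
      rw [P, mem_image] at hp
      obtain ⟨i', _, rfl⟩ := hp
      have : (⟨sw r i', sw_lt hr i'.2⟩ : Fin k) = i := by simpa [pos] using hpi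
      have h2 : i' = ⟨sw r i, sw_lt hr i.2⟩ := by
        apply Fin.ext
        simp only [← this, sw_sw]
      rw [← h2]
  · refine ⟨pos e r k hr i, ⟨mem_image_of_mem _ (mem_univ _), by simp [pos, hl]⟩, ?_⟩
    rintro p ⟨hp, hpi⟩
    rw [P, mem_image] at hp
    obtain ⟨i', _, rfl⟩ := hp
    have : i' = i := by simpa [pos, hl] using hpi
    rw [this]

lemma group_tree (L r : ℕ) (hr : 1 ≤ r) (x : ℕ → ℕ) (hx : ∀ i j, i < j → j < r * r → x i < x j)
    (hL : ∀ i, i < r * r → x i < 2 ^ L) :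
    ∃ τ : BinaryTree Unit, τ.numNodes = r ∧ nodes τ 0 0 ⊆ V L ∧ ∀ p ∈ nodes τ 0 0, p.1 ≤ L ∧
      ∃ a < r, ∀ b < r, x (a * r + b) / 2 ^ (L - p.1) = p.2 := by
  have hmul : ∀ a, a < r → a * r + r ≤ r * r := by
    intro a ha
    calc a * r + r = (a + 1) * r := by ring
      _ ≤ r * r := Nat.mul_le_mul_right _ ha
  have hmono : ∀ i j, i ≤ j → j < r * r → x i ≤ x j := by
    intro i j hij hj
    rcases hij.eq_or_lt with rfl | h
    · exact le_rfl
    · exact (hx i j h hj).le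
  obtain ⟨τ, h1, h2⟩ := tree_of_groups L (fun a => x (a * r)) (fun a => x (a * r + (r - 1))) L 0 0
    (range r) (by omega)
    (fun a ha => by
      rw [mem_range] at ha
      have := hmul a ha
      exact hmono _ _ (by omega) (by omega))
    (fun a ha b hb hab => by
      rw [mem_range] at ha hb
      have h3 := hmul b hb
      have h4 : a * r + r ≤ b * r := by
        calc a * r + r = (a + 1) * r := by ring
          _ ≤ b * r := Nat.mul_le_mul_right _ hab
      exact hx _ _ (by omega) (by omega))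
    (fun a ha => by
      rw [mem_range] at ha
      have := hmul a ha
      exact ⟨Nat.div_eq_of_lt (hL _ (by omega)), Nat.div_eq_of_lt (hL _ (by omega))⟩)
  rw [card_range] at h1
  obtain ⟨σ, h3, h4⟩ := prune τ r 0 0 h1
  have hmain : ∀ p ∈ nodes σ 0 0, p.1 ≤ L ∧
      ∃ a < r, ∀ b < r, x (a * r + b) / 2 ^ (L - p.1) = p.2 := by
    intro p hp
    obtain ⟨q1, a, ha, q2, q3⟩ := h2 p (h4 hp)
    rw [mem_range] at ha
    refine ⟨q1, a, ha, ?_⟩
    intro b hb
    have := hmul a ha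
    have e1 : x (a * r) / 2 ^ (L - p.1) ≤ x (a * r + b) / 2 ^ (L - p.1) :=
      Nat.div_le_div_right (hmono _ _ (by omega) (by omega))
    have e2 : x (a * r + b) / 2 ^ (L - p.1) ≤ x (a * r + (r - 1)) / 2 ^ (L - p.1) :=
      Nat.div_le_div_right (hmono _ _ (by omega) (by omega))
    omega
  refine ⟨σ, h3, ?_, hmain⟩
  intro p hp
  obtain ⟨q1, a, ha, q2⟩ := hmain p hp
  rw [V, mem_product, mem_range, mem_range]
  refine ⟨by omega, ?_⟩
  rw [← q2 0 (by omega)]
  have := hmul a ha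
  exact lt_of_le_of_lt (Nat.div_le_self _ _) (hL _ (by omega))

lemma core (L : ℕ) (Z : Finset ((ℕ × ℕ) × (ℕ × ℕ)))
    (hZ : ∀ τ₁ τ₂ : BinaryTree Unit, τ₁.numNodes = 12 * (L + 1) → τ₂.numNodes = 12 * (L + 1) →
      nodes τ₁ 0 0 ⊆ V L → nodes τ₂ 0 0 ⊆ V L → ¬ Disjoint Z (nodes τ₁ 0 0 ×ˢ nodes τ₂ 0 0))
    (r : ℕ) (hr : r = 12 * (L + 1)) (x y : ℕ → ℕ)
    (hx : ∀ i j, i < j → j < r * r → x i < x j) (hxL : ∀ i, i < r * r → x i < 2 ^ L)
    (hy : ∀ i j, i < j → j < r * r → y i < y j) (hyL : ∀ i, i < r * r → y i < 2 ^ L)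
    (hmem : ∀ a < r, ∀ b < r, (x (a * r + b), y (b * r + a)) ∈ ones L Z) : False := by
  obtain ⟨τ₁, a1, a2, a3⟩ := group_tree L r (by omega) x hx hxL
  obtain ⟨τ₂, b1, b2, b3⟩ := group_tree L r (by omega) y hy hyL
  apply hZ τ₁ τ₂ (a1.trans hr) (b1.trans hr) a2 b2
  rw [Finset.disjoint_left]
  rintro ⟨p, p'⟩ hz hpp
  rw [mem_product] at hpp
  obtain ⟨c1, a, ha, c2⟩ := a3 p hpp.1
  obtain ⟨d1, b, hb, d2⟩ := b3 p' hpp.2
  have hmem2 := hmem a ha b hb
  rw [ones, mem_filter] at hmem2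
  have hdis := hmem2.2
  rw [Finset.disjoint_left] at hdis
  apply hdis hz
  rw [mem_product, anc, anc, mem_image, mem_image]
  refine ⟨⟨p.1, mem_range.2 (by omega), ?_⟩, ⟨p'.1, mem_range.2 (by omega), ?_⟩⟩
  · exact Prod.ext rfl (c2 b hb)
  · exact Prod.ext rfl (d2 a ha)

/-! ### The avoiding matrices -/

/-- rows and columns `0, …, n - 1` are divided into `n / 2 ^ L` blocks, and the pattern
`ones L Z` is put into the blocks on the antidiagonal -/
def pattern (L n : ℕ) (Z : Finset ((ℕ × ℕ) × (ℕ × ℕ))) : Finset (ℕ × ℕ) :=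
  (range (n / 2 ^ L) ×ˢ ones L Z).image
    (fun z => (z.1 * 2 ^ L + z.2.1, (n / 2 ^ L - 1 - z.1) * 2 ^ L + z.2.2))

lemma ones_lt {L : ℕ} {Z : Finset ((ℕ × ℕ) × (ℕ × ℕ))} {z : ℕ × ℕ} (hz : z ∈ ones L Z) :
    z.1 < 2 ^ L ∧ z.2 < 2 ^ L := by
  have := (mem_filter.1 hz).1
  rw [mem_product, mem_range, mem_range] at this
  exact this

lemma block_div {N u v : ℕ} (hv : v < N) : (u * N + v) / N = u := by
  rw [Nat.mul_comm, Nat.mul_add_div (by omega), Nat.div_eq_of_lt hv, Nat.add_zero]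

lemma block_mod {N u v : ℕ} (hv : v < N) : (u * N + v) % N = v := by
  rw [Nat.mul_comm, Nat.mul_add_mod, Nat.mod_eq_of_lt hv]

lemma block_lt {N n u v : ℕ} (hu : u < n / N) (hv : v < N) : u * N + v < n := by
  have h1 : (u + 1) * N ≤ n / N * N := Nat.mul_le_mul_right _ hu
  have h2 : n / N * N ≤ n := Nat.div_mul_le_self n N
  have h3 : (u + 1) * N = u * N + N := by ring
  omega

lemma card_pattern (L n : ℕ) (Z : Finset ((ℕ × ℕ) × (ℕ × ℕ))) :
    (pattern L n Z).card = (n / 2 ^ L) * (ones L Z).card := by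
  rw [pattern, card_image_of_injOn, card_product, card_range]
  rintro ⟨u, z⟩ hz ⟨u', z'⟩ hz' h
  rw [mem_coe, mem_product] at hz hz'
  have h1 := ones_lt hz.2
  have h2 := ones_lt hz'.2
  have e1 := (Prod.mk.inj h).1
  have e2 := (Prod.mk.inj h).2
  simp only at e1 e2 h1 h2
  have f1 : u = u' := by
    have := congrArg (· / 2 ^ L) e1
    simpa [block_div h1.1, block_div h2.1] using this
  have f2 : z.1 = z'.1 := by
    have := congrArg (· % 2 ^ L) e1
    simp only [block_mod h1.1, block_mod h2.1] at this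
    exact this
  have f3 : z.2 = z'.2 := by
    have := congrArg (· % 2 ^ L) e2
    simp only [block_mod h1.2, block_mod h2.2] at this
    exact this
  rw [f1, Prod.ext f2 f3]

lemma mem_pattern {L n : ℕ} {Z : Finset ((ℕ × ℕ) × (ℕ × ℕ))} {x y : ℕ}
    (h : (x, y) ∈ pattern L n Z) :
    x / 2 ^ L < n / 2 ^ L ∧ y / 2 ^ L = n / 2 ^ L - 1 - x / 2 ^ L ∧
      (x % 2 ^ L, y % 2 ^ L) ∈ ones L Z := by
  rw [pattern, mem_image] at h
  obtain ⟨⟨u, z⟩, hz, he⟩ := h
  rw [mem_product, mem_range] at hz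
  have h1 := ones_lt hz.2
  have e1 := (Prod.mk.inj he).1
  have e2 := (Prod.mk.inj he).2
  simp only at e1 e2 h1
  rw [← e1, ← e2, block_div h1.1, block_div h1.2, block_mod h1.1, block_mod h1.2]
  exact ⟨hz.1, rfl, hz.2⟩

lemma pattern_lt {L n : ℕ} {Z : Finset ((ℕ × ℕ) × (ℕ × ℕ))} {z : ℕ × ℕ}
    (h : z ∈ pattern L n Z) : z.1 < n ∧ z.2 < n := by
  rw [pattern, mem_image] at h
  obtain ⟨⟨u, w⟩, hw, rfl⟩ := h
  rw [mem_product, mem_range] at hw
  have h1 := ones_lt hw.2
  simp only at h1 ⊢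
  exact ⟨block_lt hw.1 h1.1, block_lt (by have := hw.1; simp only at this; omega) h1.2⟩

/-- the avoiding matrix -/
def A (e L n : ℕ) (Z : Finset ((ℕ × ℕ) × (ℕ × ℕ))) : Finset (Fin (e + 2) → Fin n) :=
  univ.filter (fun v => (((v 0 : Fin n) : ℕ), ((v 1 : Fin n) : ℕ)) ∈ pattern L n Z)

lemma card_A (e L n : ℕ) (Z : Finset ((ℕ × ℕ) × (ℕ × ℕ))) :
    (n / 2 ^ L) * (ones L Z).card * n ^ e ≤ (A e L n Z).card := by
  classical
  have h1 : (n / 2 ^ L) * (ones L Z).card * n ^ e =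
      ((pattern L n Z).attach ×ˢ (univ : Finset (Fin e → Fin n))).card := by
    rw [card_product, card_attach, card_pattern]; simp
  rw [h1]
  have hb : ∀ xy : {xy // xy ∈ pattern L n Z}, xy.1.1 < n ∧ xy.1.2 < n :=
    fun xy => pattern_lt xy.2
  apply card_le_card_of_injOn (fun z => Fin.cons (⟨z.1.1.1, (hb z.1).1⟩ : Fin n)
    (Fin.cons (⟨z.1.1.2, (hb z.1).2⟩ : Fin n) z.2 : Fin (e + 1) → Fin n))
  · intro z _
    rw [A, coe_filter]
    refine ⟨mem_univ _, ?_⟩
    have : ((Fin.cons (⟨z.1.1.1, (hb z.1).1⟩ : Fin n)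
      (Fin.cons (⟨z.1.1.2, (hb z.1).2⟩ : Fin n) z.2 : Fin (e + 1) → Fin n) :
        Fin (e + 2) → Fin n) 1) = ⟨z.1.1.2, (hb z.1).2⟩ := by
      rw [show (1 : Fin (e + 2)) = Fin.succ 0 from rfl, Fin.cons_succ, Fin.cons_zero]
    beta_reduce
    rw [this, Fin.cons_zero]
    exact z.1.2
  · intro z _ z' _ h
    simp only at h
    rw [Fin.cons_inj, Fin.cons_inj] at h
    obtain ⟨h1, h2, h3⟩ := h
    have e1 : z.1.1.1 = z'.1.1.1 := by simpa using h1
    have e2 : z.1.1.2 = z'.1.1.2 := by simpa using h2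
    exact Prod.ext (Subtype.ext (Prod.ext e1 e2)) h3

lemma not_contains (e L k n r : ℕ) (hr : r = 12 * (L + 1)) (hk : r * r ≤ k)
    (Z : Finset ((ℕ × ℕ) × (ℕ × ℕ)))
    (hZ : ∀ τ₁ τ₂ : BinaryTree Unit, τ₁.numNodes = 12 * (L + 1) → τ₂.numNodes = 12 * (L + 1) →
      nodes τ₁ 0 0 ⊆ V L → nodes τ₂ 0 0 ⊆ V L → ¬ Disjoint Z (nodes τ₁ 0 0 ×ˢ nodes τ₂ 0 0)) :
    ¬ Contains (A e L n Z) (P e r k hk) := by
  rintro ⟨j, hj, hP⟩
  have hr1 : 1 ≤ r := by omega
  have hrr : 1 ≤ r * r := Nat.mul_le_mul hr1 hr1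
  have hk0 : 0 < k := by omega
  set N : ℕ := 2 ^ L with hN
  have hN0 : 0 < N := by rw [hN]; positivity
  -- all ones of the copy
  have hmem : ∀ i (h : i < k), (((j 0 ⟨i, h⟩ : Fin n) : ℕ),
      ((j 1 ⟨sw r i, sw_lt hk h⟩ : Fin n) : ℕ)) ∈ pattern L n Z := by
    intro i h
    have h1 := hP (pos e r k hk ⟨i, h⟩) (mem_image_of_mem _ (mem_univ _))
    rw [A, mem_filter] at h1
    have h2 := h1.2
    have hp0 : pos e r k hk ⟨i, h⟩ 0 = ⟨i, h⟩ := by simp [pos]
    have hp1 : pos e r k hk ⟨i, h⟩ 1 = ⟨sw r i, sw_lt hk h⟩ := by simp [pos]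
    simp only [hp0, hp1] at h2
    exact h2
  set x : ℕ → ℕ := fun i => if h : i < k then (j 0 ⟨i, h⟩ : ℕ) else 0 with hx
  set y : ℕ → ℕ := fun i => if h : i < k then (j 1 ⟨i, h⟩ : ℕ) else 0 with hy
  have hx' : ∀ i (h : i < k), x i = j 0 ⟨i, h⟩ := fun i h => by rw [hx]; simp [h]
  have hy' : ∀ i (h : i < k), y i = j 1 ⟨i, h⟩ := fun i h => by rw [hy]; simp [h]
  have hxs : ∀ i i', i < i' → i' < k → x i < x i' := fun i i' h h' => by
    rw [hx' i (by omega), hx' i' (by omega)]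
    exact hj 0 (by exact h)
  have hys : ∀ i i', i < i' → i' < k → y i < y i' := fun i i' h h' => by
    rw [hy' i (by omega), hy' i' (by omega)]
    exact hj 1 (by exact h)
  have hmem' : ∀ i, i < k → x i / N < n / N ∧ y (sw r i) / N = n / N - 1 - x i / N ∧
      (x i % N, y (sw r i) % N) ∈ ones L Z := by
    intro i h
    have := hmem i h
    rw [← hx' i h, ← hy' _ (sw_lt hk h)] at this
    exact mem_pattern this
  have hsw0 : sw r 0 = 0 := by
    have := sw_digits (r := r) (a := 0) (b := 0) (by omega) (by omega)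
    simpa using this
  obtain ⟨z1, z2, -⟩ := hmem' 0 hk0
  rw [hsw0] at z2
  have hxle : ∀ i, i < k → x 0 / N ≤ x i / N := by
    intro i h
    rcases Nat.eq_zero_or_pos i with rfl | h0
    · exact le_rfl
    · exact Nat.div_le_div_right (hxs 0 i h0 h).le
  have hyle : ∀ i, i < k → y 0 / N ≤ y i / N := by
    intro i h
    rcases Nat.eq_zero_or_pos i with rfl | h0
    · exact le_rfl
    · exact Nat.div_le_div_right (hys 0 i h0 h).le
  -- everything happens inside of one block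
  have hxb : ∀ i, i < k → x i / N = x 0 / N := by
    intro i h
    obtain ⟨w1, w2, -⟩ := hmem' i h
    have h1 := hxle i h
    have h2 := hyle _ (sw_lt hk h)
    omega
  have hyb : ∀ i, i < k → y i / N = y 0 / N := by
    intro i h
    obtain ⟨w1, w2, -⟩ := hmem' (sw r i) (sw_lt hk h)
    rw [sw_sw] at w2
    rw [w2, hxb _ (sw_lt hk h), z2]
  refine core L Z hZ r hr (fun i => x i % N) (fun i => y i % N) ?_ ?_ ?_ ?_ ?_
  · intro i i' h h'
    have h1 := hxs i i' h (by omega)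
    have h2 := hxb i (by omega)
    have h3 := hxb i' (by omega)
    have h4 := Nat.div_add_mod (x i) N
    have h5 := Nat.div_add_mod (x i') N
    rw [h2] at h4
    rw [h3] at h5
    omega
  · intro i _
    exact Nat.mod_lt _ hN0
  · intro i i' h h'
    have h1 := hys i i' h (by omega)
    have h2 := hyb i (by omega)
    have h3 := hyb i' (by omega)
    have h4 := Nat.div_add_mod (y i) N
    have h5 := Nat.div_add_mod (y i') N
    rw [h2] at h4
    rw [h3] at h5
    omega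
  · intro i _
    exact Nat.mod_lt _ hN0
  · intro a ha b hb
    have hab : a * r + b < r * r := by
      have : a * r + r ≤ r * r := by
        calc a * r + r = (a + 1) * r := by ring
          _ ≤ r * r := Nat.mul_le_mul_right _ ha
      omega
    have := (hmem' (a * r + b) (by omega)).2.2
    rw [sw_digits ha hb] at this
    exact this

lemma le_f {n d k : ℕ} (P : Finset (Fin d → Fin k)) (A : Finset (Fin d → Fin n))
    (h : ¬ Contains A P) : A.card ≤ f n P := by
  apply le_csSup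
  · refine ⟨Fintype.card (Fin d → Fin n), ?_⟩
    rintro m ⟨B, _, rfl⟩
    exact card_le_univ B
  · exact ⟨A, h, rfl⟩

/-- **Main theorem.** For all `d ≥ 2` and `k ≥ 144` the extremal constant `M_d(k)` is at least
`(1/6) (3/2) ^ (√k / 12)`; moreover one `d`-dimensional `k × ⋯ × k` permutation matrix `P` has
`f(n,P,d) ≥ (1/12) (3/2) ^ (√k / 12) n ^ (d-1)` for all `n ≥ 2 ^ (√k / 12)`. -/
theorem result (d k : ℕ) (hd : 2 ≤ d) (hk : 144 ≤ k) :
    ENNReal.ofReal (1 / 6 * (3 / 2 : ℝ) ^ (Real.sqrt k / 12)) ≤ M d k ∧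
    ∃ P : Finset (Fin d → Fin k), IsPerm P ∧
      ∀ n : ℕ, (2 : ℝ) ^ (Real.sqrt k / 12) ≤ n →
        1 / 12 * (3 / 2 : ℝ) ^ (Real.sqrt k / 12) * (n : ℝ) ^ (d - 1) ≤ f n P := by
  obtain ⟨e, rfl⟩ : ∃ e, d = e + 2 := ⟨d - 2, by omega⟩
  -- the parameters
  set s : ℕ := Nat.sqrt k with hs
  have hn12 : 12 ≤ s := by
    rw [hs]
    exact Nat.le_sqrt.2 (by omega)
  obtain ⟨L, hL⟩ : ∃ L, s / 12 = L + 1 := ⟨s / 12 - 1, by omega⟩
  have hLn : 12 * (L + 1) ≤ s := by omega
  have hkk : (12 * (L + 1)) * (12 * (L + 1)) ≤ k :=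
    (Nat.mul_le_mul hLn hLn).trans (Nat.sqrt_le k)
  obtain ⟨Z, hZ1, hZ2⟩ := exists_zero_set L
  -- the exponent
  have hsq : Real.sqrt k / 12 ≤ (L : ℝ) + 2 := by
    have h1 : Real.sqrt k < s + 1 := by
      rw [Real.sqrt_lt' (by positivity)]
      have := Nat.sqrt_lt' (m := k) (n := s + 1)
      have h2 : k < (s + 1) ^ 2 := by rw [← this]; omega
      exact_mod_cast h2
    have h3 : s < 12 * (L + 2) := by omega
    have h4 : (s : ℝ) + 1 ≤ 12 * (L + 2) := by exact_mod_cast h3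
    linarith
  have hexp : (3 / 2 : ℝ) ^ (Real.sqrt k / 12) ≤ 9 / 4 * (3 / 2 : ℝ) ^ L := by
    have h1 : (3 / 2 : ℝ) ^ (Real.sqrt k / 12) ≤ (3 / 2 : ℝ) ^ ((L : ℝ) + 2) :=
      Real.rpow_le_rpow_of_exponent_le (by norm_num) hsq
    have h2 : (3 / 2 : ℝ) ^ ((L : ℝ) + 2) = (3 / 2 : ℝ) ^ L * (9 / 4) := by
      rw [show ((L : ℝ) + 2) = ((L + 2 : ℕ) : ℝ) by push_cast; ring, Real.rpow_natCast,
        pow_add]
      norm_num
    rw [h2] at h1
    linarith
  -- the number of ones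
  have hreal : ∀ n : ℕ, ((n / 2 ^ L : ℕ) : ℝ) * (3 / 8 * (3 / 2 : ℝ) ^ L * 2 ^ L) * (n : ℝ) ^ e ≤
      (f n (P e (12 * (L + 1)) k hkk) : ℝ) := by
    intro n
    have hA := le_f (P e (12 * (L + 1)) k hkk) (A e L n Z) (not_contains e L k n _ rfl hkk Z hZ1)
    have hcard := (card_A e L n Z).trans hA
    have h1 : ((n / 2 ^ L : ℕ) : ℝ) * ((ones L Z).card : ℝ) * (n : ℝ) ^ e ≤
        (f n (P e (12 * (L + 1)) k hkk) : ℝ) := by exact_mod_cast hcard
    refine le_trans ?_ h1
    apply mul_le_mul_of_nonneg_right _ (by positivity)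
    apply mul_le_mul_of_nonneg_left _ (by positivity)
    refine le_trans (le_of_eq ?_) hZ2
    have h2 : (3 / 2 : ℝ) ^ L = (3 / 4) ^ L * 2 ^ L := by rw [← mul_pow]; norm_num
    rw [h2]; ring
  constructor
  · have h0 := hreal (2 ^ L)
    rw [Nat.div_self (by positivity)] at h0
    have hle : ENNReal.ofReal (1 / 6 * (3 / 2 : ℝ) ^ (Real.sqrt k / 12)) ≤
        (f (2 ^ L) (P e (12 * (L + 1)) k hkk) : ℝ≥0∞) /
          ((2 ^ L : ℕ) : ℝ≥0∞) ^ (e + 2 - 1) := by
      rw [show e + 2 - 1 = e + 1 by omega]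
      rw [ENNReal.le_div_iff_mul_le (Or.inl (by positivity)) (Or.inl (by finiteness))]
      have h1 : ((2 ^ L : ℕ) : ℝ≥0∞) ^ (e + 1) = ENNReal.ofReal ((2 ^ L) ^ (e + 1)) := by
        rw [ENNReal.ofReal_pow (by positivity), ENNReal.ofReal_pow (by positivity)]
        simp
      rw [h1, ← ENNReal.ofReal_mul (by positivity)]
      have h2 : (f (2 ^ L) (P e (12 * (L + 1)) k hkk) : ℝ≥0∞) =
          ENNReal.ofReal (f (2 ^ L) (P e (12 * (L + 1)) k hkk) : ℝ) := by simp
      rw [h2]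
      apply ENNReal.ofReal_le_ofReal
      refine le_trans ?_ h0
      push_cast
      rw [one_mul, pow_succ, mul_comm (((2 : ℝ) ^ L) ^ e), ← mul_assoc]
      apply mul_le_mul_of_nonneg_right _ (by positivity)
      apply mul_le_mul_of_nonneg_right _ (by positivity)
      linarith
    refine hle.trans ?_
    unfold M
    exact le_iSup_of_le (2 ^ L) (le_iSup_of_le Nat.one_le_two_pow
      (le_iSup_of_le (P e (12 * (L + 1)) k hkk) (le_iSup_of_le (P_isPerm e _ k hkk) le_rfl)))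
  · refine ⟨P e (12 * (L + 1)) k hkk, P_isPerm e _ k hkk, ?_⟩
    intro n hn
    refine le_trans ?_ (hreal n)
    -- `n` is at least `2 ^ L`
    have hLs : (L : ℝ) ≤ Real.sqrt k / 12 := by
      have h1 : (12 * L : ℕ) ≤ s := by omega
      have h2 : (s : ℝ) ≤ Real.sqrt k := by
        rw [hs]; exact Real.nat_sqrt_le_real_sqrt
      have h3 : ((12 * L : ℕ) : ℝ) ≤ s := by exact_mod_cast h1
      push_cast at h3
      linarith
    have hnL : (2 ^ L : ℕ) ≤ n := by
      have h1 : (2 : ℝ) ^ (L : ℝ) ≤ (2 : ℝ) ^ (Real.sqrt k / 12) :=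
        Real.rpow_le_rpow_of_exponent_le (by norm_num) hLs
      rw [Real.rpow_natCast] at h1
      have h2 := h1.trans hn
      exact_mod_cast h2
    have hdiv : (n : ℝ) ≤ 2 * (((n / 2 ^ L : ℕ) : ℝ) * 2 ^ L) := by
      have h1 : 1 ≤ n / 2 ^ L := (Nat.one_le_div_iff (by positivity)).2 hnL
      have h2 : n < (n / 2 ^ L) * 2 ^ L + 2 ^ L := by
        have h3 := Nat.div_add_mod n (2 ^ L)
        have h4 := Nat.mod_lt n (show 0 < 2 ^ L by positivity)
        rw [Nat.mul_comm] at h3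
        omega
      have h3 : 2 ^ L ≤ (n / 2 ^ L) * 2 ^ L := Nat.le_mul_of_pos_left _ h1
      have h4 : n ≤ 2 * ((n / 2 ^ L) * 2 ^ L) := by omega
      exact_mod_cast h4
    rw [show e + 2 - 1 = e + 1 by omega, pow_succ]
    have hpos : (0 : ℝ) ≤ (3 / 2 : ℝ) ^ L := by positivity
    have hne : (0 : ℝ) ≤ (n : ℝ) ^ e := by positivity
    calc 1 / 12 * (3 / 2 : ℝ) ^ (Real.sqrt k / 12) * ((n : ℝ) ^ e * n)
        ≤ 1 / 12 * (9 / 4 * (3 / 2 : ℝ) ^ L) *
            ((n : ℝ) ^ e * (2 * (((n / 2 ^ L : ℕ) : ℝ) * 2 ^ L))) := by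
          apply mul_le_mul
          · exact mul_le_mul_of_nonneg_left hexp (by norm_num)
          · exact mul_le_mul_of_nonneg_left hdiv hne
          · positivity
          · positivity
      _ = ((n / 2 ^ L : ℕ) : ℝ) * (3 / 8 * (3 / 2 : ℝ) ^ L * 2 ^ L) * (n : ℝ) ^ e := by ring

end Pool.Agent.Results.MP_f36a55_co.SqrtExponent
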